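import Pool.Agent.Lib.H7HB.M3b

/-! # MP_5a30bb: blocks of dimension at most four, or a block of odd dimension

Extension of `H7HB.SplitSimple`: if one of the blocks of `ker m` has odd dimension, all `hh` vanish (every term pairs the
elements of each block), so `(-1) ^ n` times the integrand is the sum of the squares `mp ^ 2`. -/

set_option autoImplicit false

namespace Pool.Agent.H69O

open Finset Equiv Pool.Agent.H69Hopf Pool.Agent.H46X H31R H79G H7HB

private theorem avoid {n : ℕ} {p q : Fin (2 * n)} {i s : Fin n} (hs : s ≠ i) {σ : Perm (Fin (2 * n))}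
    (hσ : (σ (fst i) = p ∧ σ (snd i) = q) ∨ (σ (fst i) = q ∧ σ (snd i) = p)) :
    σ (fst s) ≠ p ∧ σ (fst s) ≠ q ∧ σ (snd s) ≠ p ∧ σ (snd s) ≠ q := by
  have e1 : ∀ x, σ (fst i) = x → σ (fst s) ≠ x := fun x h1 h2 =>
    hs (fst_inj.1 (σ.injective (h2.trans h1.symm)))
  have e2 : ∀ x, σ (snd i) = x → σ (fst s) ≠ x := fun x h1 h2 =>
    fst_ne_snd _ _ (σ.injective (h2.trans h1.symm))
  have e3 : ∀ x, σ (fst i) = x → σ (snd s) ≠ x := fun x h1 h2 =>
    fst_ne_snd _ _ (σ.injective (h1.trans h2.symm))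
  have e4 : ∀ x, σ (snd i) = x → σ (snd s) ≠ x := fun x h1 h2 =>
    hs (snd_inj.1 (σ.injective (h2.trans h1.symm)))
  rcases hσ with ⟨h1, h2⟩ | ⟨h1, h2⟩
  · exact ⟨e1 _ h1, e2 _ h2, e3 _ h1, e4 _ h2⟩
  · exact ⟨e2 _ h2, e1 _ h1, e4 _ h2, e3 _ h1⟩

private theorem exists_perm' {n : ℕ} {ι : Type} {w : ι → Fin (2 * n) → Fin (2 * n) → ℝ} {p q : Fin (2 * n)}
    {i : Fin n} {κ : Fin n → ι} (hne : hh w p q i κ ≠ 0) :
    ∃ σ : Perm (Fin (2 * n)), ((σ (fst i) = p ∧ σ (snd i) = q) ∨ (σ (fst i) = q ∧ σ (snd i) = p)) ∧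
      ∀ s, s ≠ i → rs p q (w (κ s)) (σ (fst s)) (σ (snd s)) ≠ 0 := by
  unfold hh mp at hne
  obtain ⟨σ, -, hσ⟩ := Finset.exists_ne_zero_of_sum_ne_zero hne
  have hprod := right_ne_zero_of_mul hσ
  rw [Finset.prod_ne_zero_iff] at hprod
  have hi := hprod i (mem_univ i)
  rw [Function.update_self] at hi
  have hpq := mm_ne hi
  refine ⟨σ, hpq, fun s hs => ?_⟩
  have h1 := hprod s (mem_univ s)
  rw [Function.update_of_ne hs] at h1
  obtain ⟨a1, a2, a3, a4⟩ := avoid hs hpq
  rw [rs_of _ a1 a2 a3 a4]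
  exact h1

/-- If `hh` is not zero, every block has an even number of elements. -/
private theorem even_block {n : ℕ} {ι : Type} {w : ι → Fin (2 * n) → Fin (2 * n) → ℝ} {p q : Fin (2 * n)}
    {bk : Fin (2 * n) → ℕ} (hw : ∀ x a b, rs p q (w x) a b ≠ 0 → bk a = bk b) {i : Fin n} {κ : Fin n → ι}
    (hne : hh w p q i κ ≠ 0) (j : ℕ) : Even (B p q bk j).card := by
  classical
  obtain ⟨σ, hi, hs⟩ := exists_perm' hne
  set S : Finset (Fin n) := univ.filter fun s => s ≠ i ∧ bk (σ (fst s)) = j with hS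
  have e : B p q bk j = S.image (fun s => σ (fst s)) ∪ S.image (fun s => σ (snd s)) := by
    ext u
    constructor
    · intro hu
      rw [B, mem_filter] at hu
      obtain ⟨-, hup, huq, huj⟩ := hu
      obtain ⟨s, hr⟩ := exists_fst_or_snd (σ.symm u)
      have hsi : s ≠ i := by
        rintro rfl
        rcases hr with hr | hr
        · have hu : u = σ (fst s) := by rw [← hr, Equiv.apply_symm_apply]
          rcases hi with ⟨h1, h2⟩ | ⟨h1, h2⟩
          · exact hup (hu.trans h1)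
          · exact huq (hu.trans h1)
        · have hu : u = σ (snd s) := by rw [← hr, Equiv.apply_symm_apply]
          rcases hi with ⟨h1, h2⟩ | ⟨h1, h2⟩
          · exact huq (hu.trans h2)
          · exact hup (hu.trans h2)
      have hsup := hw (κ s) _ _ (hs s hsi)
      rw [mem_union]
      rcases hr with hr | hr
      · have hu : σ (fst s) = u := by rw [← hr, Equiv.apply_symm_apply]
        left
        rw [mem_image]
        refine ⟨s, ?_, hu⟩
        rw [hS, mem_filter]
        exact ⟨mem_univ _, hsi, by rw [hu, huj]⟩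
      · have hu : σ (snd s) = u := by rw [← hr, Equiv.apply_symm_apply]
        right
        rw [mem_image]
        refine ⟨s, ?_, hu⟩
        rw [hS, mem_filter]
        exact ⟨mem_univ _, hsi, by rw [hsup, hu, huj]⟩
    · intro hu
      rw [B, mem_filter]
      rw [mem_union] at hu
      rcases hu with hu | hu
      · rw [mem_image] at hu
        obtain ⟨s, hsS, rfl⟩ := hu
        rw [hS, mem_filter] at hsS
        obtain ⟨-, hsi, hsj⟩ := hsS
        have h1 := rs_ne (hs s hsi)
        exact ⟨mem_univ _, h1.1, h1.2.1, hsj⟩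
      · rw [mem_image] at hu
        obtain ⟨s, hsS, rfl⟩ := hu
        rw [hS, mem_filter] at hsS
        obtain ⟨-, hsi, hsj⟩ := hsS
        have h1 := rs_ne (hs s hsi)
        have h2 := hw (κ s) _ _ (hs s hsi)
        exact ⟨mem_univ _, h1.2.2.1, h1.2.2.2.1, by rw [← h2, hsj]⟩
  have h3 : (B p q bk j).card = S.card + S.card := by
    rw [e, card_union_of_disjoint, card_image_of_injective, card_image_of_injective]
    · intro a b hab
      exact snd_inj.1 (σ.injective hab)
    · intro a b hab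
      exact fst_inj.1 (σ.injective hab)
    · rw [disjoint_left]
      intro u h1 h2
      rw [mem_image] at h1 h2
      obtain ⟨a, -, ha⟩ := h1
      obtain ⟨b, -, hb⟩ := h2
      exact fst_ne_snd a b (σ.injective (ha.trans hb.symm))
  exact ⟨S.card, h3⟩

/-- The curvature operator of `R'` is at most the square of `m`, and on the span of the basis vectors other than `p, q` the
component `R' i j k l` is zero unless `i, j, k, l` are in the same block. -/
def Dat {N : ℕ} (R' : Arr N) (p q : Fin N) (bk : Fin N → ℕ) : Prop :=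
  (∀ v : Matrix (Fin N) (Fin N) ℝ, v.transpose = -v →
      ∑ i, ∑ j, ∑ k, ∑ l, R' i j k l * v i j * v k l ≤ (∑ i, ∑ j, mm p q i j * v i j) ^ 2) ∧
    ∀ i j k l, i ≠ p → i ≠ q → j ≠ p → j ≠ q → k ≠ p → k ≠ q → l ≠ p → l ≠ q →
      R' i j k l ≠ 0 → bk i = bk j ∧ bk j = bk k ∧ bk k = bk l

private theorem odd_data {n : ℕ} {R : Arr (2 * n)} (hA : IsAlgCurv R) {E : Matrix (Fin (2 * n)) (Fin (2 * n)) ℝ}
    {p q : Fin (2 * n)} {bk : Fin (2 * n) → ℕ} (hD : Dat (frameR R E) p q bk) :
    ∃ (K : ℕ) (w : Fin K → Fin (2 * n) → Fin (2 * n) → ℝ), (∀ x i j, w x i j = - w x j i) ∧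
      (∀ x a b, rs p q (w x) a b ≠ 0 → bk a = bk b) ∧
      (∀ i j k l, frameR R E i j k l = mm p q i j * mm p q k l - ∑ x, w x i j * w x k l) ∧
      ∀ x y, ∑ k, vv (w k) x y ^ 2 - vv (mm p q) x y ^ 2 = - ev R (E.mulVec x) (E.mulVec y) (E.mulVec x) (E.mulVec y) := by
  obtain ⟨hop, hblk⟩ := hD
  have hA' : IsAlgCurv (frameR R E) := frame_algCurv hA E
  set R' := frameR R E with hR'
  have hsk : ∀ i j k l, R' i j k l = - R' i j l k := by
    intro i j k l
    rw [hA'.pair i j k l, hA'.skew k l i j, hA'.pair l k i j]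
  obtain ⟨K, w, hs0, hw0⟩ := psd_sum (fun i j k l => mm p q i j * mm p q k l - R' i j k l)
    (fun i j k l => by
      show mm p q i j * mm p q k l - R' i j k l = -(mm p q j i * mm p q k l - R' j i k l)
      rw [mm_skew p q i j, hA'.skew i j k l]; ring)
    (fun i j k l => by
      show mm p q i j * mm p q k l - R' i j k l = -(mm p q i j * mm p q l k - R' i j l k)
      rw [mm_skew p q k l, hsk i j k l]; ring)
    (fun i j k l => by
      show mm p q i j * mm p q k l - R' i j k l = mm p q k l * mm p q i j - R' k l i j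
      rw [hA'.pair i j k l]; ring)
    (fun v hv => by
      have h1 := hop v hv
      have h2 : ∑ i, ∑ j, ∑ k, ∑ l, (mm p q i j * mm p q k l - R' i j k l) * v i j * v k l =
          (∑ i, ∑ j, mm p q i j * v i j) ^ 2 - ∑ i, ∑ j, ∑ k, ∑ l, R' i j k l * v i j * v k l := by
        rw [sq]
        simp only [Finset.sum_mul, Finset.mul_sum, ← Finset.sum_sub_distrib]
        refine Finset.sum_congr rfl fun i _ => Finset.sum_congr rfl fun j _ =>
          Finset.sum_congr rfl fun k _ => Finset.sum_congr rfl fun l _ => ?_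
        ring
      rw [h2]
      linarith)
  have hR2 : ∀ i j k l, R' i j k l = mm p q i j * mm p q k l - ∑ x, w x i j * w x k l := by
    intro i j k l
    rw [← hw0 i j k l]
    ring
  refine ⟨K, w, hs0, fun x a b hx => ?_, hR2, fun x y => ?_⟩
  · by_contra hab
    obtain ⟨h1, h2, h3, h4, h5⟩ := rs_ne hx
    have h6 : R' a b a b = 0 := by
      by_contra h7
      exact hab (hblk a b a b h1 h2 h3 h4 h1 h2 h3 h4 h7).1
    have h7 := hR2 a b a b
    have h8 : mm p q a b = 0 := by
      by_contra h9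
      rcases mm_ne h9 with ⟨h10, -⟩ | ⟨h10, -⟩
      · exact h1 h10
      · exact h2 h10
    rw [h6, h8] at h7
    have h9 : ∑ x, w x a b * w x a b = 0 := by linarith
    have h10 := (Finset.sum_eq_zero_iff_of_nonneg (fun x _ => mul_self_nonneg (w x a b))).1 h9 x (mem_univ x)
    exact h5 (mul_self_eq_zero.1 h10)
  · rw [← sec_frame, ← hR']
    have h1 : ∀ f : Fin (2 * n) → Fin (2 * n) → ℝ, vv f x y ^ 2 =
        ∑ i, ∑ j, ∑ k, ∑ l, (f i j * f k l) * x i * y j * x k * y l := by
      intro f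
      unfold vv
      rw [sq]
      simp only [Finset.sum_mul, Finset.mul_sum]
      refine Finset.sum_congr rfl fun i _ => Finset.sum_congr rfl fun j _ =>
        Finset.sum_congr rfl fun k _ => Finset.sum_congr rfl fun l _ => ?_
      ring
    have h2 : ∑ k, vv (w k) x y ^ 2 =
        ∑ i, ∑ j, ∑ k, ∑ l, (∑ r, w r i j * w r k l) * x i * y j * x k * y l := by
      simp only [h1, Finset.sum_mul]
      rw [Finset.sum_comm]
      refine Finset.sum_congr rfl fun i _ => ?_
      rw [Finset.sum_comm]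
      refine Finset.sum_congr rfl fun j _ => ?_
      rw [Finset.sum_comm]
      refine Finset.sum_congr rfl fun k _ => ?_
      rw [Finset.sum_comm]
    rw [h2, h1 (mm p q)]
    unfold ev
    rw [← Finset.sum_sub_distrib, ← Finset.sum_neg_distrib]
    refine Finset.sum_congr rfl fun i _ => ?_
    rw [← Finset.sum_sub_distrib, ← Finset.sum_neg_distrib]
    refine Finset.sum_congr rfl fun j _ => ?_
    rw [← Finset.sum_sub_distrib, ← Finset.sum_neg_distrib]
    refine Finset.sum_congr rfl fun k _ => ?_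
    rw [← Finset.sum_sub_distrib, ← Finset.sum_neg_distrib]
    refine Finset.sum_congr rfl fun l _ => ?_
    rw [hR2 i j k l]
    ring

private theorem odd_nonneg {n : ℕ} {R : Arr (2 * n)} (hA : IsAlgCurv R) (hK : ∀ u v, ev R u v u v ≤ 0)
    {E : Matrix (Fin (2 * n)) (Fin (2 * n)) ℝ} {p q : Fin (2 * n)} {bk : Fin (2 * n) → ℕ} (hdet : E.det ≠ 0)
    (hpq : p ≠ q) (hD : Dat (frameR R E) p q bk) (hodd : ∃ j, Odd (B p q bk j).card) :
    0 ≤ (-1) ^ n * Pool.Agent.H69Hopf.gaussBonnet n R := by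
  obtain ⟨K, w, hs, hw, hR, hv⟩ := odd_data hA hD
  obtain ⟨j, hj⟩ := hodd
  have h0 : ∀ i : Fin n, ∀ κ : Fin n → Fin K, hh w p q i κ = 0 := by
    intro i κ
    by_contra hne
    exact (Nat.not_even_iff_odd.2 hj) (even_block hw hne j)
  have h1 := gb_hh (w := w) (p := p) (q := q) (frameR R E) hR
  simp only [h0, ne_eq, OfNat.ofNat_ne_zero, not_false_eq_true, zero_pow, sum_const_zero, sub_zero] at h1
  have hc : 0 < (Fintype.card (Fin K) : ℝ) := by
    rcases Nat.eq_zero_or_pos K with rfl | hK'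
    · exfalso
      have h3 := hv (Pi.single p 1 + 0) (Pi.single q 1 + 0)
      rw [vv_mm hpq rfl rfl rfl rfl, Fintype.sum_empty] at h3
      have h4 := hK (E.mulVec (Pi.single p 1 + 0)) (E.mulVec (Pi.single q 1 + 0))
      linarith
    · rw [Fintype.card_fin]
      exact_mod_cast hK'
  have h2 := mul_left_cancel₀ hc.ne' h1
  have h3 : 0 ≤ (-1) ^ n * gaussBonnet n (frameR R E) := by
    rw [h2]
    exact Finset.sum_nonneg fun κ _ => sq_nonneg _
  rw [gb_frameR, mul_left_comm] at h3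
  have h4 : 0 < E.det ^ 2 := by positivity
  exact nonneg_of_mul_nonneg_right h3 h4

private theorem odd_pos {n : ℕ} {R : Arr (2 * n)} (hA : IsAlgCurv R)
    (hK : ∀ u v, LinearIndependent ℝ ![u, v] → ev R u v u v < 0)
    {E : Matrix (Fin (2 * n)) (Fin (2 * n)) ℝ} {p q : Fin (2 * n)} {bk : Fin (2 * n) → ℕ} (hdet : E.det ≠ 0)
    (hD : Dat (frameR R E) p q bk) (hodd : ∃ j, Odd (B p q bk j).card) :
    0 < (-1) ^ n * Pool.Agent.H69Hopf.gaussBonnet n R := by
  obtain ⟨K, w, hs, hw, hR, hv⟩ := odd_data hA hD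
  obtain ⟨j, hj⟩ := hodd
  have h0 : ∀ i : Fin n, ∀ κ : Fin n → Fin K, hh w p q i κ = 0 := by
    intro i κ
    by_contra hne
    exact (Nat.not_even_iff_odd.2 hj) (even_block hw hne j)
  have h1 := gb_hh (w := w) (p := p) (q := q) (frameR R E) hR
  simp only [h0, ne_eq, OfNat.ofNat_ne_zero, not_false_eq_true, zero_pow, sum_const_zero, sub_zero] at h1
  obtain ⟨κ, hκ⟩ := exists_mp_ne hs (fun x y hxy => by
    have h2 := hv x y
    have h4 : LinearIndependent ℝ ![E.mulVec x, E.mulVec y] := by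
      have hinj : Function.Injective E.mulVec := Matrix.mulVec_injective_iff_isUnit.2
        ((Matrix.isUnit_iff_isUnit_det E).2 (isUnit_iff_ne_zero.2 hdet))
      have h5 := hxy.map' (Matrix.mulVecLin E) (LinearMap.ker_eq_bot.2 hinj)
      have h6 : (⇑(Matrix.mulVecLin E) ∘ ![x, y]) = ![E.mulVec x, E.mulVec y] := by
        funext i
        fin_cases i <;> rfl
      rwa [h6] at h5
    have h3 := hK (E.mulVec x) (E.mulVec y) h4
    have h7 := sq_nonneg (vv (mm p q) x y)
    linarith)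
  have hn : 0 < n := by
    rcases Nat.eq_zero_or_pos n with rfl | hn
    · exact absurd p.2 (by omega)
    · exact hn
  have hc : 0 < (Fintype.card (Fin K) : ℝ) := by
    have h3 : Nonempty (Fin K) := ⟨κ ⟨0, hn⟩⟩
    exact_mod_cast Fintype.card_pos
  have h2 := mul_left_cancel₀ hc.ne' h1
  have h3 : 0 < (-1) ^ n * gaussBonnet n (frameR R E) := by
    rw [h2]
    exact Finset.sum_pos' (fun κ _ => sq_nonneg _) ⟨κ, mem_univ κ, by positivity⟩
  rw [gb_frameR, mul_left_comm] at h3
  exact (pos_iff_pos_of_mul_pos h3).1 (by positivity)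

/-- In some basis (the columns of `E`): the curvature operator of `R` is at most the square of `m = e^p ∧ e^q`, and on the span
of the other basis vectors, which are divided into blocks (`bk` = number of the block), the component `R i j k l` is zero
unless `i, j, k, l` are in the same block; all blocks have at most four elements, or some block has an odd number of
elements. -/
def SplitGen {N : ℕ} (R : Arr N) : Prop :=
  ∃ (E : Matrix (Fin N) (Fin N) ℝ) (p q : Fin N) (bk : Fin N → ℕ), E.det ≠ 0 ∧ p ≠ q ∧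
    (∀ v : Matrix (Fin N) (Fin N) ℝ, v.transpose = -v →
      ∑ i, ∑ j, ∑ k, ∑ l, frameR R E i j k l * v i j * v k l ≤ (∑ i, ∑ j, mm p q i j * v i j) ^ 2) ∧
    ((∀ j, (B p q bk j).card ≤ 4) ∨ ∃ j, Odd (B p q bk j).card) ∧
    ∀ i j k l, i ≠ p → i ≠ q → j ≠ p → j ≠ q → k ≠ p → k ≠ q → l ≠ p → l ≠ q →
      frameR R E i j k l ≠ 0 → bk i = bk j ∧ bk j = bk k ∧ bk k = bk l

theorem splitGen_of_simple {N : ℕ} {R : Arr N} (h : SplitSimple R) : SplitGen R := by
  obtain ⟨E, p, q, bk, h1, h2, h3, h4, h5⟩ := h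
  refine ⟨E, p, q, bk, h1, h2, h3, Or.inl fun j => ?_, h5⟩
  rcases h4 j with h | h | h <;> omega

private theorem splitGen_cases {N : ℕ} {R : Arr N} (h : SplitGen R) : SplitSimple R ∨
    ∃ (E : Matrix (Fin N) (Fin N) ℝ) (p q : Fin N) (bk : Fin N → ℕ), E.det ≠ 0 ∧ p ≠ q ∧
      Dat (frameR R E) p q bk ∧ ∃ j, Odd (B p q bk j).card := by
  obtain ⟨E, p, q, bk, h1, h2, h3, h4, h5⟩ := h
  by_cases hodd : ∃ j, Odd (B p q bk j).card
  · exact Or.inr ⟨E, p, q, bk, h1, h2, ⟨h3, h5⟩, hodd⟩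
  · left
    have h4' : ∀ j, (B p q bk j).card ≤ 4 := h4.resolve_right hodd
    push Not at hodd
    refine ⟨E, p, q, bk, h1, h2, h3, fun j => ?_, h5⟩
    have h6 := h4' j
    have h7 := Nat.not_odd_iff_even.1 (hodd j)
    obtain ⟨r, hr⟩ := h7
    omega

/-- The pointwise theorem. -/
theorem splitGen_nonneg {n : ℕ} {R : Arr (2 * n)} (hA : IsAlgCurv R) (hK : ∀ u v, ev R u v u v ≤ 0)
    (hS : SplitGen R) : 0 ≤ (-1) ^ n * Pool.Agent.H69Hopf.gaussBonnet n R := by
  rcases splitGen_cases hS with h | ⟨E, p, q, bk, h1, h2, h3, h4⟩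
  · exact split_nonneg hA hK h
  · exact odd_nonneg hA hK h1 h2 h3 h4

/-- The pointwise theorem, strict form. -/
theorem splitGen_pos {n : ℕ} {R : Arr (2 * n)} (hA : IsAlgCurv R)
    (hK : ∀ u v, LinearIndependent ℝ ![u, v] → ev R u v u v < 0) (hS : SplitGen R) :
    0 < (-1) ^ n * Pool.Agent.H69Hopf.gaussBonnet n R := by
  rcases splitGen_cases hS with h | ⟨E, p, q, bk, h1, h2, h3, h4⟩
  · exact split_pos hA hK h
  · exact odd_pos hA hK h1 h3 h4

end Pool.Agent.H69O
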