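import Pool.Agent.Lib.H69O.Odd

/-! # MP_5a30bb: a block of odd dimension (the form used in the hand-in) -/

set_option autoImplicit false

namespace Pool.Agent.H69O

open Finset Equiv Pool.Agent.H69Hopf Pool.Agent.H46X H31R H79G H7HB

/-- In some basis (the columns of `E`): the curvature operator of `R` is at most the square of `m = e^p ∧ e^q`, and on the span
of the other basis vectors, which are divided into blocks (`bk` = number of the block), the component `R i j k l` is zero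
unless `i, j, k, l` are in the same block; some block has an odd number of elements. -/
def SplitOdd {N : ℕ} (R : Arr N) : Prop :=
  ∃ (E : Matrix (Fin N) (Fin N) ℝ) (p q : Fin N) (bk : Fin N → ℕ), E.det ≠ 0 ∧ p ≠ q ∧
    (∀ v : Matrix (Fin N) (Fin N) ℝ, v.transpose = -v →
      ∑ i, ∑ j, ∑ k, ∑ l, frameR R E i j k l * v i j * v k l ≤ (∑ i, ∑ j, mm p q i j * v i j) ^ 2) ∧
    (∃ j, Odd (B p q bk j).card) ∧
    ∀ i j k l, i ≠ p → i ≠ q → j ≠ p → j ≠ q → k ≠ p → k ≠ q → l ≠ p → l ≠ q →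
      frameR R E i j k l ≠ 0 → bk i = bk j ∧ bk j = bk k ∧ bk k = bk l

theorem splitGen_of_odd {N : ℕ} {R : Arr N} (h : SplitOdd R) : SplitGen R := by
  obtain ⟨E, p, q, bk, h1, h2, h3, h4, h5⟩ := h
  exact ⟨E, p, q, bk, h1, h2, h3, Or.inr h4, h5⟩

/-- The pointwise theorem. -/
theorem splitOdd_nonneg {n : ℕ} {R : Arr (2 * n)} (hA : IsAlgCurv R) (hK : ∀ u v, ev R u v u v ≤ 0)
    (hS : SplitOdd R) : 0 ≤ (-1) ^ n * Pool.Agent.H69Hopf.gaussBonnet n R :=
  splitGen_nonneg hA hK (splitGen_of_odd hS)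

/-- The pointwise theorem, strict form. -/
theorem splitOdd_pos {n : ℕ} {R : Arr (2 * n)} (hA : IsAlgCurv R)
    (hK : ∀ u v, LinearIndependent ℝ ![u, v] → ev R u v u v < 0) (hS : SplitOdd R) :
    0 < (-1) ^ n * Pool.Agent.H69Hopf.gaussBonnet n R :=
  splitGen_pos hA hK (splitGen_of_odd hS)

end Pool.Agent.H69O
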